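import Mathlib
import Pool.Agent.H819.Consts

set_option autoImplicit false

open Filter

/-- Decimal digit changes of the multiples `q^n π`, `n < M`. Let `q ≥ 2` be coprime to `10`, or
`q = 2^c 5^d` with `c ≠ d`. Then there is `C > 0` such that, for all large `M`, the number of pairs
`(n, i)`, `0 ≤ n, i < M`, such that the `(i+1)`-st and `(i+2)`-nd decimals after the point of
`q^n π` are different is at least `C M^s` with `s = log 3 / log 2 > 1.58`. -/
theorem Pool.Agent.Results.MP_57632f_nt.DigitChangesGasketPi.result :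
    ∀ q : ℕ, (2 ≤ q ∧ Nat.Coprime 10 q) ∨ (∃ c d : ℕ, c ≠ d ∧ q = 2 ^ c * 5 ^ d) →
      ∃ C : ℝ, 0 < C ∧ ∀ᶠ M : ℕ in atTop, C * (M : ℝ) ^ (Real.log 3 / Real.log 2) ≤
        ((∑ n ∈ Finset.range M, ((Finset.range M).filter (fun i : ℕ =>
          ⌊(10 : ℝ) ^ (i + 1) * ((q : ℝ) ^ n * Real.pi)⌋ % 10 ≠
            ⌊(10 : ℝ) ^ (i + 2) * ((q : ℝ) ^ n * Real.pi)⌋ % 10)).card : ℕ) : ℝ) := by
  intro q hq
  have h : Pool.Agent.H819.TwoGen 10 q := by
    rcases hq with ⟨h2, hco⟩ | ⟨c, d, hcd, rfl⟩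
    · exact Pool.Agent.H819.twoGen_of_coprime (by norm_num) h2 hco
    · exact ⟨2, 5, 1, 1, c, d, le_rfl, by norm_num, by norm_num, by norm_num, rfl, by omega⟩
  have := Pool.Agent.H819.changes_pi h
  simpa only [Pool.Agent.H706R2.dig, Nat.cast_ofNat] using this
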