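import Pool.Agent.H831R3.LC.Final
import Pool.Agent.H326R2.Pi.Top

/-!
# The linear complexity profile of the digits of `π`

For all large `L` and all bases `b` (for instance `b = 10`) the linear complexity over `ℚ` of the
first `L` digits of `π` lies between `L / 6.06` and `(1 - 1 / 6.06) L`.
-/

set_option autoImplicit false

namespace Pool.Agent.Results.MP_57632f_nt.LinearComplexityOfPi

open Finset

/-- the `i`-th digit of `x` after the point in base `b` -/
noncomputable def digit (b : ℕ) (x : ℝ) (i : ℕ) : ℤ := ⌊x * (b : ℝ) ^ i⌋ % (b : ℤ)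

/-- The first `L` digits `a_1, …, a_L` satisfy a linear recurrence of order `m` over `ℚ`:
`a_(i+m) = c_0 a_i + … + c_(m-1) a_(i+m-1)` for `1 ≤ i ≤ L - m`. -/
def Recurrence (b : ℕ) (x : ℝ) (L m : ℕ) : Prop :=
  ∃ c : ℕ → ℚ, ∀ i : ℕ, 1 ≤ i → i + m ≤ L →
    (digit b x (i + m) : ℚ) = ∑ j ∈ range m, c j * (digit b x (i + j) : ℚ)

/-- the linear complexity over `ℚ` of the first `L` digits: the least order of a recurrence -/
noncomputable def linearComplexity (b : ℕ) (x : ℝ) (L : ℕ) : ℕ := sInf {m | Recurrence b x L m}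

/-- small denominators -/
theorem small_den (x : ℝ) (hx : Irrational x) (n : ℕ) :
    ∃ c : ℝ, 0 < c ∧ ∀ q : ℕ, 1 ≤ q → q < n → ∀ p : ℤ, c ≤ |q * x - p| := by
  induction n with
  | zero => exact ⟨1, one_pos, fun q _ h => absurd h (Nat.not_lt_zero q)⟩
  | succ n ih =>
    obtain ⟨c, hc, h⟩ := ih
    rcases Nat.eq_zero_or_pos n with hn | hn
    · exact ⟨1, one_pos, fun q h1 h2 => by omega⟩
    · have hirr : Irrational ((n : ℝ) * x) := hx.natCast_mul (by omega)
      have hpos : 0 < |(n : ℝ) * x - round ((n : ℝ) * x)| := by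
        rw [abs_pos, sub_ne_zero]
        exact hirr.ne_int _
      refine ⟨min c |(n : ℝ) * x - round ((n : ℝ) * x)|, lt_min hc hpos, fun q h1 h2 p => ?_⟩
      rcases Nat.lt_succ_iff_lt_or_eq.1 h2 with h3 | h3
      · exact (min_le_left _ _).trans (h q h1 h3 p)
      · rw [h3]
        exact (min_le_right _ _).trans (round_le _ _)

/-- For all large `L` and all bases `b ≥ 2` the linear complexity over `ℚ` of the first `L` digits
of `π` in base `b` is larger than `L / 6.06` and at most `(1 - 1 / 6.06) L`. -/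
theorem result : ∃ L₀ : ℕ, ∀ L : ℕ, L₀ ≤ L → ∀ b : ℕ, 2 ≤ b →
    (1 / 6.06 : ℝ) * L < linearComplexity b Real.pi L ∧
      (linearComplexity b Real.pi L : ℝ) ≤ (1 - 1 / 6.06) * L := by
  obtain ⟨q0, hq0⟩ := Pool.Agent.H326R2.Pi.main
  obtain ⟨c, hc, hsm⟩ := small_den Real.pi irrational_pi q0
  refine Pool.Agent.H831R3.LC.profile Real.pi 5.05 (min c 1) (by norm_num) (lt_min hc one_pos)
    (fun q hq p => ?_) (1 / 6.06) (by norm_num) (by norm_num)
  have hqR : (1 : ℝ) ≤ q := by exact_mod_cast hq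
  have hq0R : (0 : ℝ) < q := by linarith
  rcases lt_or_ge q q0 with h | h
  · refine (min_le_left _ _).trans ((hsm q hq h p).trans ?_)
    have h1 : (1 : ℝ) ≤ (q : ℝ) ^ (5.05 : ℝ) := Real.one_le_rpow hqR (by norm_num)
    nlinarith [abs_nonneg ((q : ℝ) * Real.pi - p)]
  · refine (min_le_right _ _).trans ?_
    have h1 := hq0 q h p
    have e1 : |Real.pi - p / q| = |q * Real.pi - p| / q := by
      rw [← abs_of_pos hq0R, ← abs_div, abs_of_pos hq0R]
      congr 1
      field_simp
    rw [e1, le_div_iff₀ hq0R] at h1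
    have h2 : (1 : ℝ) = (q : ℝ) ^ (5.05 : ℝ) * ((q : ℝ) ^ (-(6.05 : ℝ)) * q) := by
      have e2 : (q : ℝ) ^ (-(6.05 : ℝ)) * q = (q : ℝ) ^ (-(5.05 : ℝ)) := by
        rw [show (-(5.05 : ℝ)) = -(6.05 : ℝ) + 1 by norm_num, Real.rpow_add hq0R, Real.rpow_one]
      rw [e2, ← Real.rpow_add hq0R]
      norm_num
    rw [h2]
    exact mul_le_mul_of_nonneg_left h1 (by positivity)

end Pool.Agent.Results.MP_57632f_nt.LinearComplexityOfPi
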